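import Mathlib

/-!
# Las Vegas automata and one-way uniform Las Vegas protocols

Probability distributions are `PMF`s.  An answer is an element of `Option Bool`:
`some true` is the answer 1 (accept), `some false` the answer 0 (reject) and `none` the answer `?`
(neutral).
-/

namespace Pool.Agent.Q201.LV

open scoped ENNReal

/-- A random answer `o` is a Las Vegas answer for the proposition `P`: it is wrong with
probability zero and right with probability at least one half. -/
def LasVegas (o : PMF (Option Bool)) (P : Prop) : Prop :=
  (P → o (some false) = 0 ∧ 1 / 2 ≤ o (some true)) ∧
  (¬ P → o (some true) = 0 ∧ 1 / 2 ≤ o (some false))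

/-- A probabilistic finite automaton over the alphabet `α` with state set `Z`; every state is
accepting (`some true`), rejecting (`some false`) or neutral (`none`). -/
structure LVFA (α Z : Type) where
  kind : Z → Option Bool
  start : Z
  step : Z → α → PMF Z

/-- The distribution of the state reached after reading `w` from a state with distribution `p`. -/
noncomputable def LVFA.runFrom {α Z : Type} (A : LVFA α Z) (p : PMF Z) (w : List α) : PMF Z :=
  w.foldl (fun p a => p.bind fun z => A.step z a) p

/-- The distribution of the state reached on input `w`. -/
noncomputable def LVFA.run {α Z : Type} (A : LVFA α Z) (w : List α) : PMF Z :=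
  A.runFrom (PMF.pure A.start) w

/-- `A` is a Las Vegas automaton recognising `L`. -/
def LVFA.Recognises {α Z : Type} (A : LVFA α Z) (L : Language α) : Prop :=
  ∀ w : List α, LasVegas ((A.run w).map A.kind) (w ∈ L)

/-- The least number of states of a Las Vegas automaton recognising `L`. -/
noncomputable def lvs {α : Type} (L : Language α) : ℕ :=
  sInf {n : ℕ | ∃ A : LVFA α (Fin n), A.Recognises L}

/-- A one-way protocol: the sender draws a binary message from a distribution depending on the
prefix `x`, the receiver draws an answer from a distribution depending on the suffix `y` and the
message. -/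
structure Protocol (α : Type) where
  send : List α → PMF (List Bool)
  reply : List α → List Bool → PMF (Option Bool)

/-- `P` is a uniform Las Vegas protocol for `L`. -/
def Protocol.Computes {α : Type} (P : Protocol α) (L : Language α) : Prop :=
  ∀ x y : List α, LasVegas ((P.send x).bind (P.reply y)) (x ++ y ∈ L)

/-- The messages used by the protocol. -/
def Protocol.messages {α : Type} (P : Protocol α) : Set (List Bool) :=
  {m | ∃ x, P.send x m ≠ 0}

/-- The least message complexity of a one-way uniform Las Vegas protocol for `L`. -/
noncomputable def lvmc {α : Type} (L : Language α) : ℕ :=
  sInf {n : ℕ | ∃ P : Protocol α, P.Computes L ∧ P.messages.encard = n}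

/-- `G(m)`, the largest value of `lvs L` over the regular languages `L` over the alphabet `α`
with `lvmc L ≤ m`. -/
noncomputable def G (α : Type) (m : ℕ) : ℕ :=
  sSup {n : ℕ | ∃ L : Language α, L.IsRegular ∧ lvmc L ≤ m ∧ lvs L = n}

end Pool.Agent.Q201.LV
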