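import Mathlib

/-!
# Signed permutations of the Boolean cube, generated by two of them
-/

namespace Pool.Agent.Q201.LV

open Equiv

/-- Points of the cube. -/
abbrev Cube (n : ℕ) : Type := Fin (n + 2) → Bool

/-- The signed permutation `q ↦ (i ↦ q (σ i) xor c i)`. -/
def sp {n : ℕ} (σ : Perm (Fin (n + 2))) (c : Fin (n + 2) → Bool) : Perm (Cube n) where
  toFun q i := xor (q (σ i)) (c i)
  invFun q i := xor (q (σ⁻¹ i)) (c (σ⁻¹ i))
  left_inv q := by
    funext i
    simp
  right_inv q := by
    funext i
    simp

theorem sp_apply {n : ℕ} (σ : Perm (Fin (n + 2))) (c : Fin (n + 2) → Bool) (q : Cube n)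
    (i : Fin (n + 2)) : sp σ c q i = xor (q (σ i)) (c i) := rfl

theorem sp_mul {n : ℕ} (σ τ : Perm (Fin (n + 2))) (c d : Fin (n + 2) → Bool) :
    sp σ c * sp τ d = sp (τ * σ) (fun i => xor (d (σ i)) (c i)) := by
  ext q i
  simp [sp_apply, Perm.mul_apply]

theorem sp_one_zero {n : ℕ} : sp (1 : Perm (Fin (n + 2))) (fun _ => false) = 1 := by
  ext q i
  simp [sp_apply]

/-- A permutation of the coordinates. -/
def pm {n : ℕ} (σ : Perm (Fin (n + 2))) : Perm (Cube n) := sp σ (fun _ => false)

theorem pm_mul {n : ℕ} (σ τ : Perm (Fin (n + 2))) : pm σ * pm τ = pm (τ * σ) := by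
  unfold pm
  rw [sp_mul]
  simp

/-- The indicator of the coordinate 0. -/
def c0 (n : ℕ) : Fin (n + 2) → Bool := fun i => decide (i = 0)

/-- The twisted cyclic shift. -/
def cyc (n : ℕ) : Perm (Cube n) := sp (finRotate (n + 2))⁻¹ (c0 n)

theorem finite_cube_perm (n : ℕ) : Finite (Perm (Cube n)) := inferInstance

theorem inv_mem_of_finite {G : Type*} [Group G] [Finite G] (H : Submonoid G) {p : G}
    (hp : p ∈ H) : p⁻¹ ∈ H := by
  have h1 : p⁻¹ = p ^ (orderOf p - 1) := by
    rw [inv_eq_iff_mul_eq_one, ← pow_succ', Nat.sub_add_cancel (orderOf_pos p),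
      pow_orderOf_eq_one]
  rw [h1]
  exact Submonoid.pow_mem H hp _

/-- A submonoid containing the twisted shift and one transposition contains everything. -/
theorem sp_mem {n : ℕ} (H : Submonoid (Perm (Cube n))) (h1 : cyc n ∈ H)
    (h2 : pm (swap 0 1) ∈ H) (σ : Perm (Fin (n + 2))) (c : Fin (n + 2) → Bool) :
    sp σ c ∈ H := by
  -- adjacent transpositions
  have hadj : ∀ (v : ℕ) (hv : v < n + 1),
      pm (swap (Fin.castSucc (⟨v, hv⟩ : Fin (n + 1))) (Fin.succ ⟨v, hv⟩)) ∈ H := by
    intro v
    induction v with
    | zero =>
      intro hv
      exact h2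
    | succ v ih =>
      intro hv
      have hv' : v < n + 1 := by omega
      have h := ih hv'
      set τ := swap (Fin.castSucc (⟨v, hv'⟩ : Fin (n + 1))) (Fin.succ ⟨v, hv'⟩) with hτ
      set τ' := swap (Fin.castSucc (⟨v + 1, hv⟩ : Fin (n + 1))) (Fin.succ ⟨v + 1, hv⟩) with hτ'
      have key : cyc n * pm τ = pm τ' * cyc n := by
        unfold cyc pm
        rw [sp_mul, sp_mul]
        have e1 : τ * (finRotate (n + 2))⁻¹ = (finRotate (n + 2))⁻¹ * τ' := by
          have : τ' = finRotate (n + 2) * τ * (finRotate (n + 2))⁻¹ := by
            rw [hτ, ← Equiv.swap_apply_apply]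
            rw [hτ']
            congr 1
            · have : (Fin.castSucc (⟨v + 1, hv⟩ : Fin (n + 1))) =
                  (Fin.castSucc (⟨v, hv'⟩ : Fin (n + 1))) + 1 := by
                apply Fin.ext
                rw [Fin.val_add_one_of_lt]
                · simp
                · exact Fin.castSucc_lt_last _
              rw [this]
              simp
            · have : (Fin.succ (⟨v + 1, hv⟩ : Fin (n + 1))) =
                  (Fin.succ (⟨v, hv'⟩ : Fin (n + 1))) + 1 := by
                apply Fin.ext
                rw [Fin.val_add_one_of_lt]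
                · simp
                · rw [Fin.lt_def]
                  simp
                  omega
              rw [this]
              simp
          rw [this]
          group
        rw [e1]
        congr 1
        funext i
        simp only [Bool.false_bne, Bool.bne_false, c0, decide_eq_decide]
        constructor
        · rintro rfl
          rw [hτ']
          apply Equiv.swap_apply_of_ne_of_ne
          · intro hcon
            have := congrArg Fin.val hcon
            simp at this
          · intro hcon
            have := congrArg Fin.val hcon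
            simp at this
        · intro hi
          have : i = τ' (τ' i) := by rw [hτ']; simp
          rw [this, hi, hτ']
          apply Equiv.swap_apply_of_ne_of_ne
          · intro hcon
            have := congrArg Fin.val hcon
            simp at this
          · intro hcon
            have := congrArg Fin.val hcon
            simp at this
      have : pm τ' = cyc n * pm τ * (cyc n)⁻¹ := by rw [key]; group
      rw [this]
      exact H.mul_mem (H.mul_mem h1 h) (inv_mem_of_finite H h1)
  have hpm : ∀ σ : Perm (Fin (n + 2)), pm σ ∈ H := by
    let K : Submonoid (Perm (Fin (n + 2))) :=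
      { carrier := {σ | pm σ ∈ H}
        one_mem' := by
          change pm 1 ∈ H
          unfold pm
          rw [sp_one_zero]
          exact H.one_mem
        mul_mem' := by
          intro a b ha hb
          change pm (a * b) ∈ H
          rw [← pm_mul]
          exact H.mul_mem hb ha }
    have hK : K = ⊤ := by
      rw [eq_top_iff, ← Equiv.Perm.mclosure_swap_castSucc_succ (n + 1), Submonoid.closure_le]
      rintro _ ⟨i, rfl⟩
      exact hadj i.1 i.2
    intro σ
    have : σ ∈ K := by rw [hK]; trivial
    exact this
  have hfl0 : sp 1 (c0 n) ∈ H := by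
    have : cyc n = sp 1 (c0 n) * pm (finRotate (n + 2))⁻¹ := by
      unfold cyc pm
      rw [sp_mul]
      simp
    have h3 : sp 1 (c0 n) = cyc n * (pm (finRotate (n + 2))⁻¹)⁻¹ := by rw [this]; group
    rw [h3]
    exact H.mul_mem h1 (inv_mem_of_finite H (hpm _))
  have hfl1 : ∀ a, sp 1 (fun i => decide (i = a)) ∈ H := by
    intro a
    have : sp 1 (fun i => decide (i = a)) = pm (swap 0 a) * sp 1 (c0 n) * pm (swap 0 a) := by
      unfold pm
      rw [sp_mul, sp_mul]
      have e1 : swap 0 a * (1 * swap 0 a) = 1 := by
        rw [one_mul, Equiv.swap_mul_self]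
      rw [e1]
      congr 1
      funext i
      simp only [Bool.false_bne, Bool.bne_false, c0, decide_eq_decide]
      constructor
      · rintro rfl
        simp
      · intro hi
        have : i = swap 0 a (swap 0 a i) := by simp
        rw [this, hi, Equiv.swap_apply_left]
    rw [this]
    exact H.mul_mem (H.mul_mem (hpm _) hfl0) (hpm _)
  have hfl : ∀ S : Finset (Fin (n + 2)), sp 1 (fun i => decide (i ∈ S)) ∈ H := by
    intro S
    induction S using Finset.induction_on with
    | empty =>
      have : sp (1 : Perm (Fin (n + 2))) (fun i => decide (i ∈ (∅ : Finset (Fin (n + 2))))) = 1 := by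
        rw [← sp_one_zero]
        congr 1
      rw [this]
      exact H.one_mem
    | insert a S ha ih =>
      have : sp 1 (fun i => decide (i ∈ insert a S)) =
          sp 1 (fun i => decide (i = a)) * sp 1 (fun i => decide (i ∈ S)) := by
        rw [sp_mul]
        congr 1
        funext i
        by_cases hi : i = a
        · subst hi
          simp [ha]
        · have h1 : decide (i = a) = false := by simp [hi]
          have h2 : decide (i ∈ insert a S) = decide (i ∈ S) := by
            rw [decide_eq_decide]
            simp [hi]
          rw [h1, h2]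
          simp only [Bool.bne_false]
          exact decide_eq_decide.mpr Iff.rfl
      rw [this]
      exact H.mul_mem (hfl1 a) ih
  have hall : sp 1 c ∈ H := by
    have : c = fun i => decide (i ∈ Finset.univ.filter (fun i => c i = true)) := by
      funext i
      simp
    rw [this]
    exact hfl _
  have : sp σ c = sp 1 c * pm σ := by
    unfold pm
    rw [sp_mul]
    simp
  rw [this]
  exact H.mul_mem hall (hpm σ)

end Pool.Agent.Q201.LV
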