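import Mathlib

/-!
# An information inequality: few messages separate few rows

A combinatorial form of the bound `#rows ≤ (#messages)^2` for one-way uniform Las Vegas protocols.
-/

namespace Pool.Agent.Q201.LV

open Finset

/-- `t log t`. -/
noncomputable def ph (t : ℝ) : ℝ := t * Real.log t

theorem ph_zero : ph 0 = 0 := by simp [ph]

/-- `φ(a+b) - φ(a) - φ(b)`. -/
noncomputable def ps (a b : ℝ) : ℝ := ph (a + b) - ph a - ph b

theorem ps_zero_left (b : ℝ) : ps 0 b = 0 := by simp [ps, ph]

theorem ps_zero_right (a : ℝ) : ps a 0 = 0 := by simp [ps, ph]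

/-- One summand of the log-sum inequality. -/
theorem logsum_aux {a s A S : ℝ} (ha : 0 ≤ a) (has : a ≤ s) (hA : 0 < A) (hAS : A ≤ S) :
    a * Real.log s - a * Real.log a ≤ a * Real.log S - a * Real.log A + (s * A / S - a) := by
  have hS : 0 < S := lt_of_lt_of_le hA hAS
  rcases ha.eq_or_lt with h0 | h0
  · subst h0
    simp only [zero_mul, sub_zero, zero_add]
    have : 0 ≤ s * A / S := by positivity
    linarith
  · have hs : 0 < s := lt_of_lt_of_le h0 has
    have key : Real.log (s * A / (a * S)) ≤ s * A / (a * S) - 1 :=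
      Real.log_le_sub_one_of_pos (by positivity)
    have e1 : Real.log (s * A / (a * S)) =
        Real.log s + Real.log A - Real.log a - Real.log S := by
      rw [Real.log_div (by positivity) (by positivity), Real.log_mul hs.ne' hA.ne',
        Real.log_mul h0.ne' hS.ne']
      ring
    rw [e1] at key
    have e2 : a * (s * A / (a * S) - 1) = s * A / S - a := by
      field_simp
    have := mul_le_mul_of_nonneg_left key ha
    rw [e2] at this
    nlinarith [this]

/-- The log-sum inequality. -/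
theorem logsum {ι : Type*} (M : Finset ι) (a s : ι → ℝ) (ha : ∀ i ∈ M, 0 ≤ a i)
    (has : ∀ i ∈ M, a i ≤ s i) :
    ∑ i ∈ M, (a i * Real.log (s i) - a i * Real.log (a i)) ≤
      (∑ i ∈ M, a i) * Real.log (∑ i ∈ M, s i) -
        (∑ i ∈ M, a i) * Real.log (∑ i ∈ M, a i) := by
  rcases (Finset.sum_nonneg ha).eq_or_lt with h0 | h0
  · have hz : ∀ i ∈ M, a i = 0 := (Finset.sum_eq_zero_iff_of_nonneg ha).mp h0.symm
    rw [← h0]
    simp only [zero_mul, sub_zero]
    apply le_of_eq
    apply Finset.sum_eq_zero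
    intro i hi
    rw [hz i hi]
    simp
  · have hAS : ∑ i ∈ M, a i ≤ ∑ i ∈ M, s i := Finset.sum_le_sum has
    have hS : 0 < ∑ i ∈ M, s i := lt_of_lt_of_le h0 hAS
    calc ∑ i ∈ M, (a i * Real.log (s i) - a i * Real.log (a i))
        ≤ ∑ i ∈ M, (a i * Real.log (∑ i ∈ M, s i) - a i * Real.log (∑ i ∈ M, a i) +
            (s i * (∑ i ∈ M, a i) / (∑ i ∈ M, s i) - a i)) :=
          Finset.sum_le_sum fun i hi => logsum_aux (ha i hi) (has i hi) h0 hAS
      _ = (∑ i ∈ M, a i) * Real.log (∑ i ∈ M, s i) -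
            (∑ i ∈ M, a i) * Real.log (∑ i ∈ M, a i) +
            ((∑ i ∈ M, s i) * (∑ i ∈ M, a i) / (∑ i ∈ M, s i) - ∑ i ∈ M, a i) := by
          rw [Finset.sum_add_distrib, Finset.sum_sub_distrib, Finset.sum_sub_distrib,
            ← Finset.sum_mul, ← Finset.sum_mul, ← Finset.sum_div, ← Finset.sum_mul]
      _ = _ := by
          have : (∑ i ∈ M, s i) * (∑ i ∈ M, a i) / (∑ i ∈ M, s i) = ∑ i ∈ M, a i := by
            field_simp
          rw [this]; ring

theorem ps_eq (a b : ℝ) : ps a b =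
    (a * Real.log (a + b) - a * Real.log a) + (b * Real.log (a + b) - b * Real.log b) := by
  unfold ps ph; ring

/-- `ps` is superadditive. -/
theorem sum_ps_le {ι : Type*} (M : Finset ι) (a b : ι → ℝ) (ha : ∀ i ∈ M, 0 ≤ a i)
    (hb : ∀ i ∈ M, 0 ≤ b i) :
    ∑ i ∈ M, ps (a i) (b i) ≤ ps (∑ i ∈ M, a i) (∑ i ∈ M, b i) := by
  have h1 := logsum M a (fun i => a i + b i) ha (fun i hi => by linarith [hb i hi])
  have h2 := logsum M b (fun i => a i + b i) hb (fun i hi => by linarith [ha i hi])
  rw [ps_eq, Finset.sum_congr rfl fun i _ => ps_eq (a i) (b i), Finset.sum_add_distrib]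
  rw [Finset.sum_add_distrib] at h1 h2
  linarith

theorem ps_add_le {a b a' b' : ℝ} (ha : 0 ≤ a) (hb : 0 ≤ b) (ha' : 0 ≤ a') (hb' : 0 ≤ b') :
    ps a b + ps a' b' ≤ ps (a + a') (b + b') := by
  have := sum_ps_le (Finset.univ : Finset Bool) (fun i => bif i then a' else a)
    (fun i => bif i then b' else b) (by intro i _; cases i <;> simp [ha, ha'])
    (by intro i _; cases i <;> simp [hb, hb'])
  simp only [Fintype.sum_bool, cond_true, cond_false] at this
  rw [add_comm (ps a b), add_comm a, add_comm b]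
  exact this

theorem ps_mono {a b A B : ℝ} (ha : 0 ≤ a) (hb : 0 ≤ b) (haA : a ≤ A) (hbB : b ≤ B) :
    ps a b ≤ ps A B := by
  have h1 := ps_add_le (a := a) (b := b) (a' := A - a) (b' := 0) ha hb (by linarith) le_rfl
  rw [ps_zero_right] at h1
  have h2 := ps_add_le (a := A) (b := b) (a' := 0) (b' := B - b) (by linarith) hb le_rfl
    (by linarith)
  rw [ps_zero_left] at h2
  simp only [add_zero, add_sub_cancel] at h1 h2
  linarith

theorem ps_half {a b : ℝ} (ha : 0 < a) (hb : 0 < b) : ps (a / 2) (b / 2) = ps a b / 2 := by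
  unfold ps ph
  rw [← add_div, Real.log_div (by positivity) (by norm_num), Real.log_div ha.ne' (by norm_num),
    Real.log_div hb.ne' (by norm_num)]
  ring

/-- The potential argument. -/
theorem sum_ph_le {X Y ι : Type*} [DecidableEq X] (M : Finset ι) (p : X → ι → ℝ)
    (hp : ∀ x m, 0 ≤ p x m) (hp1 : ∀ x, ∑ m ∈ M, p x m = 1) (f : X → Y → Prop)
    (u : Y → ι → Prop)
    (hu : ∀ x y, (open Classical in ∑ m ∈ M.filter (u y), p x m) ≤ 1 / 2)
    (hd : ∀ x x' y m, ¬ u y m → f x y → ¬ f x' y → p x m = 0 ∨ p x' m = 0) :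
    ∀ (n : ℕ) (S : Finset X), S.card = n → (∀ x ∈ S, ∀ x' ∈ S, x ≠ x' → ∃ y, ¬ (f x y ↔ f x' y)) →
      ∑ m ∈ M, ph (∑ x ∈ S, p x m) ≤ ph S.card / 2 := by
  classical
  intro n
  induction n using Nat.strong_induction_on with
  | _ n ih =>
  intro S hS hdist
  by_cases hcard : S.card ≤ 1
  · have hle : ∀ x, ∀ m ∈ M, p x m ≤ 1 := by
      intro x m hm
      rw [← hp1 x]
      exact Finset.single_le_sum (f := p x) (fun m _ => hp x m) hm
    interval_cases h : S.card
    · rw [Finset.card_eq_zero] at h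
      subst h
      simp [ph]
    · obtain ⟨x, rfl⟩ := Finset.card_eq_one.mp h
      simp only [Finset.sum_singleton]
      have : ph ((1 : ℕ) : ℝ) / 2 = 0 := by simp [ph]
      rw [this]
      apply Finset.sum_nonpos
      intro m hm
      unfold ph
      exact mul_nonpos_of_nonneg_of_nonpos (hp x m) (Real.log_nonpos (hp x m) (hle x m hm))
  · push Not at hcard
    obtain ⟨x0, hx0, x1, hx1, hne⟩ := Finset.one_lt_card.mp hcard
    obtain ⟨y, hy⟩ := hdist x0 hx0 x1 hx1 hne
    set S0 := S.filter (fun x => f x y) with hS0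
    set S1 := S.filter (fun x => ¬ f x y) with hS1
    have hcardsum : S0.card + S1.card = S.card := Finset.card_filter_add_card_filter_not _
    have hne0 : 0 < S0.card := by
      rw [Finset.card_pos]
      by_cases h : f x0 y
      · exact ⟨x0, Finset.mem_filter.mpr ⟨hx0, h⟩⟩
      · refine ⟨x1, Finset.mem_filter.mpr ⟨hx1, ?_⟩⟩
        by_contra h'
        exact hy ⟨fun a => absurd a h, fun a => absurd a h'⟩
    have hne1 : 0 < S1.card := by
      rw [Finset.card_pos]
      by_cases h : f x0 y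
      · refine ⟨x1, Finset.mem_filter.mpr ⟨hx1, ?_⟩⟩
        intro h'
        exact hy ⟨fun _ => h', fun _ => h⟩
      · exact ⟨x0, Finset.mem_filter.mpr ⟨hx0, h⟩⟩
    have hsplit : ∀ m, ∑ x ∈ S, p x m = ∑ x ∈ S0, p x m + ∑ x ∈ S1, p x m := by
      intro m
      rw [hS0, hS1, Finset.sum_filter_add_sum_filter_not]
    have ih0 := ih S0.card (by omega) S0 rfl (fun x hx x' hx' h =>
      hdist x (Finset.mem_of_mem_filter x hx) x' (Finset.mem_of_mem_filter x' hx') h)
    have ih1 := ih S1.card (by omega) S1 rfl (fun x hx x' hx' h =>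
      hdist x (Finset.mem_of_mem_filter x hx) x' (Finset.mem_of_mem_filter x' hx') h)
    set a : ι → ℝ := fun m => ∑ x ∈ S0, p x m with ha
    set b : ι → ℝ := fun m => ∑ x ∈ S1, p x m with hb
    have ha0 : ∀ m, 0 ≤ a m := fun m => Finset.sum_nonneg fun x _ => hp x m
    have hb0 : ∀ m, 0 ≤ b m := fun m => Finset.sum_nonneg fun x _ => hp x m
    have hT : ∑ m ∈ M, ph (∑ x ∈ S, p x m) =
        ∑ m ∈ M, ph (a m) + ∑ m ∈ M, ph (b m) + ∑ m ∈ M, ps (a m) (b m) := by
      rw [← Finset.sum_add_distrib, ← Finset.sum_add_distrib]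
      apply Finset.sum_congr rfl
      intro m _
      rw [hsplit m]
      unfold ps
      ring
    have hdec : ∑ m ∈ M, ps (a m) (b m) = ∑ m ∈ M.filter (u y), ps (a m) (b m) := by
      rw [← Finset.sum_filter_add_sum_filter_not M (u y)]
      have : ∑ m ∈ M.filter (fun m => ¬ u y m), ps (a m) (b m) = 0 := by
        apply Finset.sum_eq_zero
        intro m hm
        have hum : ¬ u y m := (Finset.mem_filter.mp hm).2
        by_cases h : a m = 0
        · rw [h, ps_zero_left]
        · have : b m = 0 := by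
            have : ∃ x ∈ S0, p x m ≠ 0 := by
              by_contra hcon
              push Not at hcon
              exact h (Finset.sum_eq_zero hcon)
            obtain ⟨x, hx, hxm⟩ := this
            apply Finset.sum_eq_zero
            intro x' hx'
            exact (hd x x' y m hum (Finset.mem_filter.mp hx).2
              (Finset.mem_filter.mp hx').2).resolve_left hxm
          rw [this, ps_zero_right]
      rw [this, add_zero]
    have hAle : ∑ m ∈ M.filter (u y), a m ≤ (S0.card : ℝ) / 2 := by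
      rw [ha, Finset.sum_comm]
      calc ∑ x ∈ S0, ∑ m ∈ M.filter (u y), p x m ≤ ∑ x ∈ S0, (1 / 2 : ℝ) :=
            Finset.sum_le_sum fun x _ => hu x y
        _ = _ := by simp; ring
    have hBle : ∑ m ∈ M.filter (u y), b m ≤ (S1.card : ℝ) / 2 := by
      rw [hb, Finset.sum_comm]
      calc ∑ x ∈ S1, ∑ m ∈ M.filter (u y), p x m ≤ ∑ x ∈ S1, (1 / 2 : ℝ) :=
            Finset.sum_le_sum fun x _ => hu x y
        _ = _ := by simp; ring
    have hps : ∑ m ∈ M, ps (a m) (b m) ≤ ps (S0.card : ℝ) (S1.card : ℝ) / 2 := by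
      rw [hdec]
      refine (sum_ps_le _ a b (fun m _ => ha0 m) (fun m _ => hb0 m)).trans ?_
      rw [← ps_half (by exact_mod_cast hne0) (by exact_mod_cast hne1)]
      exact ps_mono (Finset.sum_nonneg fun m _ => ha0 m) (Finset.sum_nonneg fun m _ => hb0 m)
        hAle hBle
    rw [hT]
    have hfin : ph (S.card : ℝ) / 2 = ph (S0.card : ℝ) / 2 + ph (S1.card : ℝ) / 2 +
        ps (S0.card : ℝ) (S1.card : ℝ) / 2 := by
      unfold ps
      rw [← hcardsum]
      push_cast
      ring
    rw [hfin]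
    linarith

/-- Rows that are pairwise distinct are at most as many as the square of the number of messages. -/
theorem card_rows_le {X Y ι : Type*} [DecidableEq X] (M : Finset ι) (p : X → ι → ℝ)
    (hp : ∀ x m, 0 ≤ p x m) (hp1 : ∀ x, ∑ m ∈ M, p x m = 1) (f : X → Y → Prop)
    (u : Y → ι → Prop)
    (hu : ∀ x y, (open Classical in ∑ m ∈ M.filter (u y), p x m) ≤ 1 / 2)
    (hd : ∀ x x' y m, ¬ u y m → f x y → ¬ f x' y → p x m = 0 ∨ p x' m = 0)
    (S : Finset X) (hdist : ∀ x ∈ S, ∀ x' ∈ S, x ≠ x' → ∃ y, ¬ (f x y ↔ f x' y)) :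
    S.card ≤ M.card ^ 2 := by
  have h := sum_ph_le M p hp hp1 f u hu hd S.card S rfl hdist
  rcases Nat.eq_zero_or_pos S.card with h0 | h0
  · rw [h0]; exact Nat.zero_le _
  have hx : S.Nonempty := Finset.card_pos.mp h0
  obtain ⟨x, hx⟩ := hx
  have hM : 0 < M.card := by
    rw [Finset.card_pos]
    by_contra hcon
    rw [Finset.not_nonempty_iff_eq_empty] at hcon
    have := hp1 x
    rw [hcon] at this
    simp at this
  have hN : (0 : ℝ) < S.card := by exact_mod_cast h0
  have hK : (0 : ℝ) < M.card := by exact_mod_cast hM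
  have hsum : ∑ m ∈ M, ∑ x ∈ S, p x m = S.card := by
    rw [Finset.sum_comm]
    simp [hp1]
  -- Jensen
  have hJ : ∀ m ∈ M, (∑ x ∈ S, p x m) - (S.card : ℝ) / M.card ≤
      ph (∑ x ∈ S, p x m) - (∑ x ∈ S, p x m) * Real.log ((S.card : ℝ) / M.card) := by
    intro m _
    have hnn : 0 ≤ ∑ x ∈ S, p x m := Finset.sum_nonneg fun x _ => hp x m
    rcases hnn.eq_or_lt with hz | hz
    · rw [← hz]
      simp only [zero_sub, zero_mul, sub_zero, ph_zero]
      have : 0 < (S.card : ℝ) / M.card := by positivity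
      linarith
    · set P := ∑ x ∈ S, p x m
      set c := (S.card : ℝ) / M.card with hc
      have hcpos : 0 < c := by positivity
      have key : Real.log (c / P) ≤ c / P - 1 := Real.log_le_sub_one_of_pos (by positivity)
      rw [Real.log_div hcpos.ne' hz.ne'] at key
      have := mul_le_mul_of_nonneg_left key hz.le
      have e : P * (c / P - 1) = c - P := by field_simp
      rw [e] at this
      unfold ph
      nlinarith
  have hsum2 := Finset.sum_le_sum hJ
  rw [Finset.sum_sub_distrib, Finset.sum_sub_distrib, hsum, ← Finset.sum_mul, hsum,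
    Finset.sum_const, nsmul_eq_mul] at hsum2
  have e1 : (M.card : ℝ) * ((S.card : ℝ) / M.card) = S.card := by field_simp
  rw [e1] at hsum2
  have h3 : (S.card : ℝ) * Real.log ((S.card : ℝ) / M.card) ≤ ph S.card / 2 := by linarith
  unfold ph at h3
  rw [Real.log_div hN.ne' hK.ne'] at h3
  have h4 : Real.log S.card ≤ 2 * Real.log M.card := by
    have : (S.card : ℝ) * (Real.log S.card - 2 * Real.log M.card) ≤ 0 := by nlinarith
    have := nonpos_of_mul_nonpos_right this hN
    linarith
  have h5 : Real.log (S.card : ℝ) ≤ Real.log ((M.card : ℝ) ^ 2) := by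
    rw [Real.log_pow]
    exact_mod_cast h4
  have h6 := (Real.log_le_log_iff hN (by positivity)).mp h5
  exact_mod_cast h6

end Pool.Agent.Q201.LV
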