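import Pool.Agent.Q201.LV.Upper
import Pool.Agent.Q201.LV.Hyper

/-!
# The language of signed permutations and its small Las Vegas protocol
-/

namespace Pool.Agent.Q201.LV

open Equiv
open scoped ENNReal

section

variable {α : Type} [DecidableEq α]

/-- The action of the letters. -/
def act (n : ℕ) (s0 s1 a : α) : Perm (Cube n) :=
  if a = s0 then cyc n else if a = s1 then pm (swap 0 1) else 1

/-- The action of the words. -/
def wact (n : ℕ) (s0 s1 : α) (w : List α) : Perm (Cube n) :=
  (w.map (act n s0 s1)).reverse.prod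

theorem wact_append (n : ℕ) (s0 s1 : α) (u v : List α) :
    wact n s0 s1 (u ++ v) = wact n s0 s1 v * wact n s0 s1 u := by
  simp [wact, List.reverse_append, List.prod_append]

/-- The starting point of the cube. -/
def q0 (n : ℕ) : Cube n := fun _ => false

/-- The language: the words moving the starting point to a point with coordinate 0 equal to 1. -/
def langH (n : ℕ) (s0 s1 : α) : Language α := {w | wact n s0 s1 w (q0 n) 0 = true}

theorem mem_langH (n : ℕ) (s0 s1 : α) (w : List α) :
    w ∈ langH n s0 s1 ↔ wact n s0 s1 w (q0 n) 0 = true := Iff.rfl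

theorem langH_isRegular (n : ℕ) (s0 s1 : α) : (langH n s0 s1).IsRegular := by
  refine ⟨Cube n, inferInstance, ⟨fun q a => act n s0 s1 a q, q0 n, {q | q 0 = true}⟩, ?_⟩
  have h : ∀ w : List α, DFA.eval (⟨fun q a => act n s0 s1 a q, q0 n, {q | q 0 = true}⟩ :
      DFA α (Cube n)) w = wact n s0 s1 w (q0 n) := by
    intro w
    induction w using List.reverseRecOn with
    | nil => simp [wact]
    | append_singleton w a ih =>
      rw [DFA.eval_append_singleton, ih, wact_append]
      simp [wact, Perm.mul_apply]
  ext w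
  rw [DFA.mem_accepts, h, mem_langH]
  rfl

/-- Every signed permutation is the action of a word. -/
theorem exists_word (n : ℕ) {s0 s1 : α} (hs : s0 ≠ s1) (σ : Perm (Fin (n + 2)))
    (c : Fin (n + 2) → Bool) : ∃ w, wact n s0 s1 w = sp σ c := by
  let H : Submonoid (Perm (Cube n)) :=
    { carrier := {p | ∃ w, wact n s0 s1 w = p}
      one_mem' := ⟨[], by simp [wact]⟩
      mul_mem' := by
        rintro a b ⟨u, rfl⟩ ⟨v, rfl⟩
        exact ⟨v ++ u, wact_append n s0 s1 v u⟩ }
  exact sp_mem H ⟨[s0], by simp [wact, act]⟩ ⟨[s1], by simp [wact, act, hs.symm]⟩ σ c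

/-- The action of a word is a signed permutation. -/
theorem wact_eq_sp (n : ℕ) (s0 s1 : α) (w : List α) :
    ∃ (σ : Perm (Fin (n + 2))) (c : Fin (n + 2) → Bool), wact n s0 s1 w = sp σ c := by
  induction w using List.reverseRecOn with
  | nil => exact ⟨1, fun _ => false, by simp [wact, sp_one_zero]⟩
  | append_singleton w a ih =>
    obtain ⟨σ, c, h⟩ := ih
    have ha : ∃ (τ : Perm (Fin (n + 2))) (d : Fin (n + 2) → Bool), act n s0 s1 a = sp τ d := by
      unfold act
      split_ifs
      · exact ⟨_, _, rfl⟩
      · exact ⟨_, _, rfl⟩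
      · exact ⟨1, fun _ => false, sp_one_zero.symm⟩
    obtain ⟨τ, d, ha⟩ := ha
    refine ⟨σ * τ, fun i => xor (c (τ i)) (d i), ?_⟩
    rw [wact_append, h, ← sp_mul]
    simp [wact, ha]

/-- The half `h` of the coordinates. -/
def half {n k : ℕ} (hn : n + 2 = 2 * k) (h : Bool) (q : Cube n) : Fin k → Bool :=
  fun i => q ⟨bif h then k + i else i, by
    have := i.2
    cases h <;> simp <;> omega⟩

/-- The answer of the receiver. -/
def ansH {n : ℕ} (k : ℕ) (i : Fin (n + 2)) (b : Bool) : List Bool → Option Bool
  | [] => none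
  | h :: u => if h = decide (k ≤ (i : ℕ)) then
      some (xor (u.getD (if k ≤ (i : ℕ) then (i : ℕ) - k else i) false) b) else none

theorem ansH_msg {n k : ℕ} (hn : n + 2 = 2 * k) (i : Fin (n + 2)) (b : Bool) (q : Cube n)
    (h : Bool) : ansH k i b (h :: List.ofFn (half hn h q)) =
      if h = decide (k ≤ (i : ℕ)) then some (xor (q i) b) else none := by
  change (if h = decide (k ≤ (i : ℕ)) then
      some (xor ((List.ofFn (half hn h q)).getD
        (if k ≤ (i : ℕ) then (i : ℕ) - k else i) false) b) else none) = _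
  by_cases h1 : h = decide (k ≤ (i : ℕ))
  · rw [if_pos h1, if_pos h1]
    congr 2
    by_cases h2 : k ≤ (i : ℕ)
    · have hh : h = true := by rw [h1]; simp [h2]
      subst hh
      have hlt : (i : ℕ) - k < k := by have := i.2; omega
      rw [if_pos h2, List.getD_eq_getElem _ _ (by simpa using hlt), List.getElem_ofFn]
      unfold half
      congr 1
      apply Fin.ext
      simp
      omega
    · have hh : h = false := by rw [h1]; simp [h2]
      subst hh
      have hlt : (i : ℕ) < k := by omega
      rw [if_neg h2, List.getD_eq_getElem _ _ (by simpa using hlt), List.getElem_ofFn]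
      rfl
  · rw [if_neg h1, if_neg h1]

/-- The protocol. -/
noncomputable def protH {n k : ℕ} (hn : n + 2 = 2 * k) (s0 s1 : α) : Protocol α where
  send x := (PMF.uniformOfFintype Bool).map
    fun h => h :: List.ofFn (half hn h (wact n s0 s1 x (q0 n)))
  reply y m := PMF.pure (ansH k ((wact_eq_sp n s0 s1 y).choose 0)
    ((wact_eq_sp n s0 s1 y).choose_spec.choose 0) m)

theorem protH_computes {n k : ℕ} (hn : n + 2 = 2 * k) (s0 s1 : α) :
    (protH hn s0 s1).Computes (langH n s0 s1) := by
  intro x y
  have hy := (wact_eq_sp n s0 s1 y).choose_spec.choose_spec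
  set σ := (wact_eq_sp n s0 s1 y).choose with hσ
  set c := (wact_eq_sp n s0 s1 y).choose_spec.choose with hc
  have hmem : x ++ y ∈ langH n s0 s1 ↔
      xor (wact n s0 s1 x (q0 n) (σ 0)) (c 0) = true := by
    rw [mem_langH, wact_append, Perm.mul_apply, hy, sp_apply]
  have hout : ((protH hn s0 s1).send x).bind ((protH hn s0 s1).reply y) =
      (PMF.uniformOfFintype Bool).map (fun h => if h = decide (k ≤ (σ 0 : ℕ)) then
        some (xor (wact n s0 s1 x (q0 n) (σ 0)) (c 0)) else none) := by
    unfold protH
    simp only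
    rw [PMF.bind_map]
    have : (PMF.uniformOfFintype Bool).map (fun h => if h = decide (k ≤ (σ 0 : ℕ)) then
        some (xor (wact n s0 s1 x (q0 n) (σ 0)) (c 0)) else none) =
        (PMF.uniformOfFintype Bool).bind (PMF.pure ∘ (fun h => if h = decide (k ≤ (σ 0 : ℕ)) then
        some (xor (wact n s0 s1 x (q0 n) (σ 0)) (c 0)) else none)) := rfl
    rw [this]
    congr 1
    funext h
    simp only [Function.comp]
    rw [ansH_msg]
  rw [hout]
  have hhalf : ∀ (d v : Bool), ((PMF.uniformOfFintype Bool).map
      (fun h => if h = d then some v else none)) (some v) = 1 / 2 := by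
    intro d v
    rw [PMF.map_apply, tsum_fintype, Fintype.sum_bool]
    cases d <;> simp
  have hzero : ∀ (d v : Bool), ((PMF.uniformOfFintype Bool).map
      (fun h => if h = d then some v else none)) (some (!v)) = 0 := by
    intro d v
    rw [PMF.map_apply, tsum_fintype, Fintype.sum_bool]
    cases d <;> cases v <;> simp
  constructor
  · intro h
    rw [hmem] at h
    rw [h]
    exact ⟨hzero _ true, (hhalf _ true).ge⟩
  · intro h
    rw [hmem, Bool.not_eq_true] at h
    rw [h]
    exact ⟨hzero _ false, (hhalf _ false).ge⟩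

theorem lvmc_langH_le {n k : ℕ} (hn : n + 2 = 2 * k) (s0 s1 : α) :
    lvmc (langH n s0 s1) ≤ 2 * 2 ^ k := by
  classical
  have hsub : (protH hn s0 s1).messages ⊆
      Set.range (fun t : Bool × (Fin k → Bool) => t.1 :: List.ofFn t.2) := by
    rintro m ⟨x, hx⟩
    have : m ∈ ((protH hn s0 s1).send x).support := hx
    unfold protH at this
    simp only [PMF.mem_support_map_iff] at this
    obtain ⟨h, _, rfl⟩ := this
    exact ⟨(h, _), rfl⟩
  have hfin : (protH hn s0 s1).messages.Finite := (Set.finite_range _).subset hsub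
  have hcard : (protH hn s0 s1).messages.ncard ≤ 2 * 2 ^ k := by
    refine (Set.ncard_le_ncard hsub (Set.finite_range _)).trans ?_
    rw [← Set.image_univ]
    refine (Set.ncard_image_le Set.finite_univ).trans ?_
    rw [Set.ncard_univ, Nat.card_eq_fintype_card]
    simp
  refine le_trans (Nat.sInf_le ⟨protH hn s0 s1, protH_computes hn s0 s1, ?_⟩) hcard
  exact (Set.Finite.cast_ncard_eq hfin).symm

end

end Pool.Agent.Q201.LV
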