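import Pool.Agent.Q201.LV.Lang

/-!
# The lower bound for Las Vegas automata
-/

namespace Pool.Agent.Q201.LV

open Equiv
open scoped ENNReal

section

variable {α Z : Type}

theorem runFrom_nil (A : LVFA α Z) (p : PMF Z) : A.runFrom p [] = p := rfl

theorem runFrom_eq_bind (A : LVFA α Z) (p : PMF Z) (w : List α) :
    A.runFrom p w = p.bind (fun z => A.runFrom (PMF.pure z) w) := by
  induction w using List.reverseRecOn with
  | nil => simp [LVFA.runFrom]
  | append_singleton w a ih =>
    rw [runFrom_append, ih]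
    have h1 : ∀ q : PMF Z, A.runFrom q [a] = q.bind fun z => A.step z a := fun q => rfl
    rw [h1, PMF.bind_bind]
    congr 1
    funext z
    rw [runFrom_append, h1]

variable [Fintype Z]

/-- The real transition probabilities. -/
noncomputable def kr (A : LVFA α Z) (z : Z) (w : List α) (z' : Z) : ℝ :=
  (A.runFrom (PMF.pure z) w z').toReal

/-- The real state probabilities. -/
noncomputable def pr (A : LVFA α Z) (x : List α) (z : Z) : ℝ := (A.run x z).toReal

theorem kr_nonneg (A : LVFA α Z) (z : Z) (w : List α) (z' : Z) : 0 ≤ kr A z w z' :=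
  ENNReal.toReal_nonneg

theorem pr_nonneg (A : LVFA α Z) (x : List α) (z : Z) : 0 ≤ pr A x z :=
  ENNReal.toReal_nonneg

theorem sum_toReal (p : PMF Z) : ∑ z, (p z).toReal = 1 := by
  rw [← ENNReal.toReal_sum (fun z _ => PMF.apply_ne_top p z), ← tsum_fintype (L := .unconditional Z),
    PMF.tsum_coe]
  simp

theorem sum_kr (A : LVFA α Z) (z : Z) (w : List α) : ∑ z', kr A z w z' = 1 := sum_toReal _

theorem sum_pr (A : LVFA α Z) (x : List α) : ∑ z, pr A x z = 1 := sum_toReal _

theorem pr_append (A : LVFA α Z) (x w : List α) (z' : Z) :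
    pr A (x ++ w) z' = ∑ z, pr A x z * kr A z w z' := by
  unfold pr kr
  rw [run_append, runFrom_eq_bind, PMF.bind_apply, tsum_fintype, ENNReal.toReal_sum]
  · simp only [ENNReal.toReal_mul]
  · intro z _
    exact ENNReal.mul_ne_top (PMF.apply_ne_top _ _) (PMF.apply_ne_top _ _)

theorem pr_append_pos (A : LVFA α Z) {x w : List α} {z z' : Z} (h1 : pr A x z ≠ 0)
    (h2 : kr A z w z' ≠ 0) : pr A (x ++ w) z' ≠ 0 := by
  rw [pr_append]
  have h1' : 0 < pr A x z := lt_of_le_of_ne (pr_nonneg A x z) (Ne.symm h1)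
  have h2' : 0 < kr A z w z' := lt_of_le_of_ne (kr_nonneg A z w z') (Ne.symm h2)
  have : 0 < ∑ z, pr A x z * kr A z w z' := by
    apply Finset.sum_pos'
    · intro i _
      exact mul_nonneg (pr_nonneg A x i) (kr_nonneg A i w z')
    · exact ⟨z, Finset.mem_univ z, mul_pos h1' h2'⟩
  exact this.ne'

/-- The probability of an answer. -/
theorem map_kind_toReal (A : LVFA α Z) (x : List α) (o : Option Bool) :
    (((A.run x).map A.kind) o).toReal = ∑ z, if A.kind z = o then pr A x z else 0 := by
  classical
  rw [PMF.map_apply, tsum_fintype, ENNReal.toReal_sum]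
  · apply Finset.sum_congr rfl
    intro z _
    by_cases h : A.kind z = o
    · rw [if_pos h, if_pos h.symm]
      rfl
    · rw [if_neg h, if_neg (fun h' => h h'.symm)]
      simp
  · intro z _
    split_ifs
    · exact PMF.apply_ne_top _ _
    · exact ENNReal.zero_ne_top

theorem kind_of_pr {A : LVFA α Z} {L : Language α} (hA : A.Recognises L) {x : List α} {z : Z}
    {b : Bool} (h : pr A x z ≠ 0) (hk : A.kind z = some b) : (x ∈ L ↔ b = true) := by
  classical
  have key : (((A.run x).map A.kind) (some b)) ≠ 0 := by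
    intro h0
    have h1 := map_kind_toReal A x (some b)
    rw [h0, ENNReal.toReal_zero] at h1
    have h2 := (Finset.sum_eq_zero_iff_of_nonneg (fun z _ => by
      split_ifs
      · exact pr_nonneg A x z
      · exact le_rfl)).mp h1.symm z (Finset.mem_univ z)
    rw [if_pos hk] at h2
    exact h h2
  cases b
  · constructor
    · intro hx
      exact absurd ((hA x).1 hx).1 key
    · intro hx
      exact absurd hx (by decide)
  · constructor
    · intro _
      rfl
    · intro _
      by_contra hx
      exact key ((hA x).2 hx).1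

theorem exists_half {A : LVFA α Z} {L : Language α} (hA : A.Recognises L) (x : List α) :
    ∃ b : Bool, (x ∈ L ↔ b = true) ∧ (1 / 2 : ℝ) ≤ ∑ z, if A.kind z = some b then pr A x z else 0 := by
  classical
  by_cases h : x ∈ L
  · refine ⟨true, by simp [h], ?_⟩
    rw [← map_kind_toReal]
    exact half_le_toReal ((hA x).1 h).2 (PMF.apply_ne_top _ _)
  · refine ⟨false, by simp [h], ?_⟩
    rw [← map_kind_toReal]
    exact half_le_toReal ((hA x).2 h).2 (PMF.apply_ne_top _ _)

end

/-- If `2 m ≤ N` then `2 ^ m ≤ C(N, m)`. -/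
theorem two_pow_le_choose : ∀ (m N : ℕ), 2 * m ≤ N → 2 ^ m ≤ N.choose m := by
  intro m
  induction m with
  | zero => intro N _; simp
  | succ m ih =>
    intro N hN
    obtain ⟨N, rfl⟩ : ∃ N', N = N' + 2 := ⟨N - 2, by omega⟩
    have h1 := ih N (by omega)
    rw [Nat.choose_succ_succ, Nat.choose_succ_succ N m]
    have h2 : N.choose m ≤ (N + 1).choose m := Nat.choose_le_choose m (Nat.le_succ N)
    rw [pow_succ]
    omega

section

variable {α Z : Type} [DecidableEq α] [Fintype Z]

open Classical in
/-- The points of the cube that are compatible with the state `z`. -/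
noncomputable def PP (A : LVFA α Z) (n : ℕ) (s0 s1 : α) (z : Z) : Finset (Cube n) :=
  Finset.univ.filter (fun q => ∃ x, pr A x z ≠ 0 ∧ wact n s0 s1 x (q0 n) = q)

open Classical in
/-- The coordinates known in the state `z`. -/
noncomputable def II {n : ℕ} (P : Finset (Cube n)) : Finset (Fin (n + 2)) :=
  Finset.univ.filter (fun i => ∀ q ∈ P, ∀ q' ∈ P, q i = q' i)

theorem mem_PP (A : LVFA α Z) (n : ℕ) (s0 s1 : α) (z : Z) (q : Cube n) :
    q ∈ PP A n s0 s1 z ↔ ∃ x, pr A x z ≠ 0 ∧ wact n s0 s1 x (q0 n) = q := by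
  simp [PP]

theorem mem_II {n : ℕ} (P : Finset (Cube n)) (i : Fin (n + 2)) :
    i ∈ II P ↔ ∀ q ∈ P, ∀ q' ∈ P, q i = q' i := by
  simp [II]

theorem image_subset (A : LVFA α Z) (n : ℕ) (s0 s1 : α) {z z' : Z} {w : List α}
    (h : kr A z w z' ≠ 0) :
    (PP A n s0 s1 z).image (wact n s0 s1 w) ⊆ PP A n s0 s1 z' := by
  intro q hq
  rw [Finset.mem_image] at hq
  obtain ⟨q, hq, rfl⟩ := hq
  rw [mem_PP] at hq
  obtain ⟨x, hx, rfl⟩ := hq
  rw [mem_PP]
  exact ⟨x ++ w, pr_append_pos A hx h, by rw [wact_append, Perm.mul_apply]⟩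

/-- Every coordinate is known with probability at least one half. -/
theorem known_half (A : LVFA α Z) (n : ℕ) {s0 s1 : α} (hs : s0 ≠ s1)
    (hA : A.Recognises (langH n s0 s1)) (x : List α) (i : Fin (n + 2)) :
    (1 / 2 : ℝ) ≤ ∑ z, if i ∈ II (PP A n s0 s1 z) then pr A x z else 0 := by
  classical
  obtain ⟨y, hy⟩ := exists_word n hs (swap 0 i) (fun _ => false)
  have hmem : ∀ x, x ++ y ∈ langH n s0 s1 ↔ wact n s0 s1 x (q0 n) i = true := by
    intro x
    rw [mem_langH, wact_append, Perm.mul_apply, hy, sp_apply]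
    simp
  obtain ⟨b, hb, hsum⟩ := exists_half hA (x ++ y)
  refine hsum.trans ?_
  have e1 : ∑ z', (if A.kind z' = some b then pr A (x ++ y) z' else 0) =
      ∑ z, pr A x z * ∑ z', (if A.kind z' = some b then kr A z y z' else 0) := by
    simp only [pr_append, Finset.mul_sum]
    rw [Finset.sum_comm]
    apply Finset.sum_congr rfl
    intro z' _
    split_ifs with h
    · rfl
    · simp
  rw [e1]
  apply Finset.sum_le_sum
  intro z _
  split_ifs with hz
  · have : ∑ z', (if A.kind z' = some b then kr A z y z' else 0) ≤ 1 := by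
      rw [← sum_kr A z y]
      apply Finset.sum_le_sum
      intro z' _
      split_ifs
      · exact le_rfl
      · exact kr_nonneg A z y z'
    calc pr A x z * ∑ z', (if A.kind z' = some b then kr A z y z' else 0) ≤ pr A x z * 1 :=
          mul_le_mul_of_nonneg_left this (pr_nonneg A x z)
      _ = _ := mul_one _
  · apply le_of_eq
    by_cases hx : pr A x z = 0
    · rw [hx, zero_mul]
    · have : ∑ z', (if A.kind z' = some b then kr A z y z' else 0) = 0 := by
        apply Finset.sum_eq_zero
        intro z' _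
        split_ifs with hk
        · by_contra hne
          rw [mem_II] at hz
          push Not at hz
          obtain ⟨q, hq, q', hq', hqq⟩ := hz
          rw [mem_PP] at hq hq'
          obtain ⟨x1, hx1, rfl⟩ := hq
          obtain ⟨x2, hx2, rfl⟩ := hq'
          have h1 := kind_of_pr hA (pr_append_pos A hx1 hne) hk
          have h2 := kind_of_pr hA (pr_append_pos A hx2 hne) hk
          rw [hmem] at h1 h2
          apply hqq
          rw [Bool.eq_iff_iff, h1, h2]
        · rfl
      rw [this, mul_zero]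

/-- The potential. -/
noncomputable def pot (A : LVFA α Z) (n : ℕ) (s0 s1 : α) (x : List α) : ℝ :=
  ∑ z, pr A x z * ((PP A n s0 s1 z).card : ℝ)

theorem pot_le (A : LVFA α Z) (n : ℕ) (s0 s1 : α) (x : List α) :
    pot A n s0 s1 x ≤ Fintype.card (Cube n) := by
  unfold pot
  calc ∑ z, pr A x z * ((PP A n s0 s1 z).card : ℝ) ≤
        ∑ z, pr A x z * (Fintype.card (Cube n) : ℝ) := by
        apply Finset.sum_le_sum
        intro z _
        apply mul_le_mul_of_nonneg_left _ (pr_nonneg A x z)
        exact_mod_cast Finset.card_le_univ _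
    _ = _ := by rw [← Finset.sum_mul, sum_pr, one_mul]

theorem exists_stable (A : LVFA α Z) (n : ℕ) (s0 s1 : α) {ε : ℝ} (hε : 0 < ε) :
    ∃ x, ∀ w, pot A n s0 s1 (x ++ w) ≤ pot A n s0 s1 x + ε := by
  have hbdd : BddAbove (Set.range (pot A n s0 s1)) :=
    ⟨_, by rintro _ ⟨x, rfl⟩; exact pot_le A n s0 s1 x⟩
  obtain ⟨_, ⟨x, rfl⟩, hx⟩ := exists_lt_of_lt_csSup (Set.range_nonempty (pot A n s0 s1))
    (show sSup (Set.range (pot A n s0 s1)) - ε < sSup (Set.range (pot A n s0 s1)) by linarith)
  refine ⟨x, fun w => ?_⟩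
  have := le_csSup hbdd ⟨x ++ w, rfl⟩
  linarith

theorem card_image_wact (A : LVFA α Z) (n : ℕ) (s0 s1 : α) (z : Z) (w : List α) :
    ((PP A n s0 s1 z).image (wact n s0 s1 w)).card = (PP A n s0 s1 z).card :=
  Finset.card_image_of_injective _ (wact n s0 s1 w).injective

/-- From a heavy state of a stable word, every translate of the compatible set is realised. -/
theorem exists_translate (A : LVFA α Z) (n : ℕ) (s0 s1 : α) {ε : ℝ} {x : List α}
    (hx : ∀ w, pot A n s0 s1 (x ++ w) ≤ pot A n s0 s1 x + ε) {z : Z} (hz : ε < pr A x z)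
    (w : List α) :
    ∃ z', PP A n s0 s1 z' = (PP A n s0 s1 z).image (wact n s0 s1 w) := by
  classical
  have hmono : ∀ z1 z', kr A z1 w z' ≠ 0 →
      (PP A n s0 s1 z1).card ≤ (PP A n s0 s1 z').card := by
    intro z1 z' h
    rw [← card_image_wact A n s0 s1 z1 w]
    exact Finset.card_le_card (image_subset A n s0 s1 h)
  by_contra hcon
  push Not at hcon
  have hstrict : ∀ z', kr A z w z' ≠ 0 →
      (PP A n s0 s1 z).card + 1 ≤ (PP A n s0 s1 z').card := by
    intro z' h
    by_contra hlt
    push Not at hlt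
    apply hcon z'
    symm
    apply Finset.eq_of_subset_of_card_le (image_subset A n s0 s1 h)
    rw [card_image_wact]
    omega
  have hlow : ∀ z1, pr A x z1 * ((PP A n s0 s1 z1).card : ℝ) + (if z1 = z then pr A x z else 0) ≤
      pr A x z1 * ∑ z', kr A z1 w z' * ((PP A n s0 s1 z').card : ℝ) := by
    intro z1
    split_ifs with h
    · subst h
      have : ((PP A n s0 s1 z1).card : ℝ) + 1 ≤
          ∑ z', kr A z1 w z' * ((PP A n s0 s1 z').card : ℝ) := by
        calc ((PP A n s0 s1 z1).card : ℝ) + 1 =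
            ∑ z', kr A z1 w z' * (((PP A n s0 s1 z1).card : ℝ) + 1) := by
              rw [← Finset.sum_mul, sum_kr, one_mul]
          _ ≤ _ := by
              apply Finset.sum_le_sum
              intro z' _
              by_cases h0 : kr A z1 w z' = 0
              · rw [h0]; simp
              · apply mul_le_mul_of_nonneg_left _ (kr_nonneg A z1 w z')
                exact_mod_cast hstrict z' h0
      have := mul_le_mul_of_nonneg_left this (pr_nonneg A x z1)
      linarith
    · rw [add_zero]
      apply mul_le_mul_of_nonneg_left _ (pr_nonneg A x z1)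
      calc ((PP A n s0 s1 z1).card : ℝ) =
            ∑ z', kr A z1 w z' * ((PP A n s0 s1 z1).card : ℝ) := by
              rw [← Finset.sum_mul, sum_kr, one_mul]
          _ ≤ _ := by
              apply Finset.sum_le_sum
              intro z' _
              by_cases h0 : kr A z1 w z' = 0
              · rw [h0]; simp
              · apply mul_le_mul_of_nonneg_left _ (kr_nonneg A z1 w z')
                exact_mod_cast hmono z1 z' h0
  have hsum := Finset.sum_le_sum (s := Finset.univ) fun z1 _ => hlow z1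
  rw [Finset.sum_add_distrib, Finset.sum_ite_eq' Finset.univ z] at hsum
  simp only [Finset.mem_univ, if_true] at hsum
  have e : ∑ z1, pr A x z1 * ∑ z', kr A z1 w z' * ((PP A n s0 s1 z').card : ℝ) =
      pot A n s0 s1 (x ++ w) := by
    unfold pot
    simp only [pr_append, Finset.sum_mul, Finset.mul_sum]
    rw [Finset.sum_comm]
    apply Finset.sum_congr rfl
    intro z' _
    apply Finset.sum_congr rfl
    intro z1 _
    ring
  rw [e] at hsum
  have := hx w
  unfold pot at this hsum
  linarith

/-- Some heavy state knows at least half of the coordinates. -/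
theorem exists_heavy (A : LVFA α Z) {n k : ℕ} (hn : n + 2 = 2 * k) {s0 s1 : α} (hs : s0 ≠ s1)
    (hA : A.Recognises (langH n s0 s1)) (x : List α) :
    ∃ z, k ≤ (II (PP A n s0 s1 z)).card ∧
      1 / (((k : ℝ) + 1) * (Fintype.card Z : ℝ)) ≤ pr A x z := by
  classical
  have hk : 1 ≤ k := by omega
  have hkR : (1 : ℝ) ≤ k := by exact_mod_cast hk
  set c : Z → ℝ := fun z => ((II (PP A n s0 s1 z)).card : ℝ) with hc
  have hZ : Nonempty Z := ⟨A.start⟩
  have hZc : (0 : ℝ) < Fintype.card Z := by exact_mod_cast Fintype.card_pos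
  have hexp : (k : ℝ) ≤ ∑ z, pr A x z * c z := by
    have h1 : ∑ i : Fin (n + 2), (1 / 2 : ℝ) ≤
        ∑ i : Fin (n + 2), ∑ z, if i ∈ II (PP A n s0 s1 z) then pr A x z else 0 :=
      Finset.sum_le_sum fun i _ => known_half A n hs hA x i
    rw [Finset.sum_comm] at h1
    have h2 : ∀ z, (∑ i : Fin (n + 2), if i ∈ II (PP A n s0 s1 z) then pr A x z else 0) =
        pr A x z * c z := by
      intro z
      rw [← Finset.sum_filter]
      simp only [Finset.sum_const, nsmul_eq_mul, Finset.filter_mem_eq_inter, Finset.univ_inter, hc]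
      ring
    simp only [h2] at h1
    have h3 : ∑ i : Fin (n + 2), (1 / 2 : ℝ) = k := by
      rw [Finset.sum_const, Finset.card_univ, Fintype.card_fin, nsmul_eq_mul, hn]
      push_cast
      ring
    rwa [h3] at h1
  have hle : ∀ z, c z ≤ 2 * k := by
    intro z
    have h1 : (II (PP A n s0 s1 z)).card ≤ n + 2 := by
      simpa using Finset.card_le_univ (II (PP A n s0 s1 z))
    have h2 : (II (PP A n s0 s1 z)).card ≤ 2 * k := by omega
    change ((II (PP A n s0 s1 z)).card : ℝ) ≤ 2 * k
    exact_mod_cast h2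
  by_contra hcon
  push Not at hcon
  set δ : ℝ := 1 / (((k : ℝ) + 1) * (Fintype.card Z : ℝ)) with hδ
  have hδpos : 0 < δ := by positivity
  have hbound : ∀ z, pr A x z * c z ≤ pr A x z * (k - 1) + (if (k : ℝ) ≤ c z then (k + 1) * pr A x z else 0) := by
    intro z
    split_ifs with h
    · have := mul_le_mul_of_nonneg_left (hle z) (pr_nonneg A x z)
      nlinarith [this]
    · rw [add_zero]
      apply mul_le_mul_of_nonneg_left _ (pr_nonneg A x z)
      have h' : (II (PP A n s0 s1 z)).card < k := by
        by_contra hge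
        apply h
        change (k : ℝ) ≤ ((II (PP A n s0 s1 z)).card : ℝ)
        exact_mod_cast not_lt.mp hge
      have h'' : (II (PP A n s0 s1 z)).card + 1 ≤ k := h'
      have : c z + 1 ≤ k := by
        change ((II (PP A n s0 s1 z)).card : ℝ) + 1 ≤ k
        exact_mod_cast h''
      linarith
  have hbig : ∀ z, (if (k : ℝ) ≤ c z then ((k : ℝ) + 1) * pr A x z else 0) < (k + 1) * δ := by
    intro z
    split_ifs with h
    · have h' : (k : ℝ) ≤ ((II (PP A n s0 s1 z)).card : ℝ) := h
      have := hcon z (by exact_mod_cast h')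
      apply mul_lt_mul_of_pos_left this (by positivity)
    · positivity
  have hs1 : ∑ z, pr A x z * c z < (k - 1) + 1 := by
    calc ∑ z, pr A x z * c z ≤
        ∑ z, (pr A x z * (k - 1) + (if (k : ℝ) ≤ c z then ((k : ℝ) + 1) * pr A x z else 0)) :=
          Finset.sum_le_sum fun z _ => hbound z
      _ = (k - 1) + ∑ z, (if (k : ℝ) ≤ c z then ((k : ℝ) + 1) * pr A x z else 0) := by
          rw [Finset.sum_add_distrib, ← Finset.sum_mul, sum_pr, one_mul]
      _ < (k - 1) + ∑ _z : Z, (k + 1) * δ := by
          have := Finset.sum_lt_sum_of_nonempty Finset.univ_nonempty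
            (fun z (_ : z ∈ (Finset.univ : Finset Z)) => hbig z)
          linarith
      _ = (k - 1) + 1 := by
          rw [Finset.sum_const, Finset.card_univ, nsmul_eq_mul, hδ]
          field_simp
  linarith

/-- The lower bound on the number of states. -/
theorem card_states_ge (A : LVFA α Z) {n k : ℕ} (hn : n + 2 = 2 * k) {s0 s1 : α} (hs : s0 ≠ s1)
    (hA : A.Recognises (langH n s0 s1)) : 2 ^ (2 * k) ≤ Fintype.card Z := by
  classical
  have hZ : Nonempty Z := ⟨A.start⟩
  have hZc : (0 : ℝ) < Fintype.card Z := by exact_mod_cast Fintype.card_pos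
  set δ : ℝ := 1 / (((k : ℝ) + 1) * (Fintype.card Z : ℝ)) with hδ
  have hδpos : 0 < δ := by positivity
  obtain ⟨x, hx⟩ := exists_stable A n s0 s1 (half_pos hδpos)
  obtain ⟨z, hzk, hzp⟩ := exists_heavy A hn hs hA x
  have hz : δ / 2 < pr A x z := lt_of_lt_of_le (half_lt_self hδpos) hzp
  have htr := exists_translate A n s0 s1 hx hz
  set P := PP A n s0 s1 z with hP
  set I := II P with hI
  set t := I.card with ht
  -- a point of P
  have hqs : wact n s0 s1 x (q0 n) ∈ P := by
    rw [hP, mem_PP]
    exact ⟨x, (by linarith : (0 : ℝ) < pr A x z).ne', rfl⟩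
  set qs := wact n s0 s1 x (q0 n) with hqsdef
  -- the set of pairs
  let Pairs : Finset (Σ _ : Finset (Fin (n + 2)), Finset (Fin (n + 2))) :=
    (Finset.powersetCard t (Finset.univ : Finset (Fin (n + 2)))).sigma (fun J => J.powerset)
  have hPairs : Pairs.card = (n + 2).choose t * 2 ^ t := by
    rw [Finset.card_sigma]
    rw [Finset.sum_congr rfl (g := fun _ => 2 ^ t)]
    · rw [Finset.sum_const, Finset.card_powersetCard, Finset.card_univ, Fintype.card_fin,
        smul_eq_mul]
    · intro J hJ
      rw [Finset.card_powerset, (Finset.mem_powersetCard.mp hJ).2]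
  let F : Z → (Σ _ : Finset (Fin (n + 2)), Finset (Fin (n + 2))) := fun z' =>
    ⟨II (PP A n s0 s1 z'), (II (PP A n s0 s1 z')).filter
      (fun j => ∀ q ∈ PP A n s0 s1 z', q j = true)⟩
  have hcover : Pairs ⊆ Finset.univ.image F := by
    rintro ⟨J, S⟩ hJS
    rw [Finset.mem_sigma, Finset.mem_powersetCard, Finset.mem_powerset] at hJS
    obtain ⟨⟨-, hJ⟩, hS⟩ := hJS
    simp only at hJ hS
    -- a permutation taking J to I
    have hcard : Fintype.card {j // j ∈ J} = Fintype.card {j // j ∈ I} := by
      rw [Fintype.card_coe, Fintype.card_coe, hJ]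
    let e := Fintype.equivOfCardEq hcard
    let σ : Perm (Fin (n + 2)) := e.extendSubtype
    have hσ : ∀ j, σ j ∈ I ↔ j ∈ J := by
      intro j
      constructor
      · intro h
        by_contra hj
        exact e.extendSubtype_not_mem j hj h
      · intro hj
        exact e.extendSubtype_mem j hj
    obtain ⟨w, hw⟩ := exists_word n hs σ (fun j => xor (qs (σ j)) (decide (j ∈ S)))
    obtain ⟨z', hz'⟩ := htr w
    rw [Finset.mem_image]
    refine ⟨z', Finset.mem_univ _, ?_⟩
    have hmemP : ∀ q, q ∈ PP A n s0 s1 z' ↔ ∃ p ∈ P, q = fun j =>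
        xor (p (σ j)) (xor (qs (σ j)) (decide (j ∈ S))) := by
      intro q
      rw [hz', Finset.mem_image]
      constructor
      · rintro ⟨p, hp, rfl⟩
        refine ⟨p, hp, ?_⟩
        rw [hw]
        rfl
      · rintro ⟨p, hp, rfl⟩
        refine ⟨p, hp, ?_⟩
        rw [hw]
        rfl
    have hII : II (PP A n s0 s1 z') = J := by
      ext j
      rw [mem_II, ← hσ j, hI, mem_II]
      constructor
      · intro h q hq q' hq'
        have := h _ ((hmemP _).mpr ⟨q, hq, rfl⟩) _ ((hmemP _).mpr ⟨q', hq', rfl⟩)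
        simpa using this
      · intro h q hq q' hq'
        obtain ⟨p, hp, rfl⟩ := (hmemP _).mp hq
        obtain ⟨p', hp', rfl⟩ := (hmemP _).mp hq'
        simp only
        rw [h p hp p' hp']
    have hT : (II (PP A n s0 s1 z')).filter (fun j => ∀ q ∈ PP A n s0 s1 z', q j = true) = S := by
      ext j
      rw [Finset.mem_filter, hII]
      constructor
      · rintro ⟨hj, h⟩
        have := h _ ((hmemP _).mpr ⟨qs, hqs, rfl⟩)
        simpa using this
      · intro hj
        have hjJ : j ∈ J := hS hj
        refine ⟨hjJ, ?_⟩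
        intro q hq
        obtain ⟨p, hp, rfl⟩ := (hmemP _).mp hq
        have h1 : σ j ∈ II P := (hσ j).mpr hjJ
        rw [mem_II] at h1
        simp only
        rw [h1 p hp qs hqs]
        simp [hj]
    change (⟨II (PP A n s0 s1 z'), _⟩ : Σ _ : Finset (Fin (n + 2)), Finset (Fin (n + 2))) = ⟨J, S⟩
    rw [hT, hII]
  have h1 : Pairs.card ≤ Fintype.card Z := by
    refine (Finset.card_le_card hcover).trans ?_
    refine Finset.card_image_le.trans ?_
    rw [Finset.card_univ]
  rw [hPairs] at h1
  refine le_trans ?_ h1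
  have htn : t ≤ n + 2 := by simpa using Finset.card_le_univ I
  have h2 : 2 ^ (2 * k - t) ≤ (n + 2).choose t := by
    rw [← Nat.choose_symm htn, hn]
    exact two_pow_le_choose _ _ (by omega)
  calc 2 ^ (2 * k) = 2 ^ (2 * k - t) * 2 ^ t := by
        rw [← pow_add]
        congr 1
        omega
    _ ≤ _ := Nat.mul_le_mul_right _ h2

end

end Pool.Agent.Q201.LV
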