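import Pool.Agent.Q201.LV.Defs
import Pool.Agent.Q201.LV.Info

/-!
# The upper bound: `lvs L ≤ (lvmc L)^2`
-/

namespace Pool.Agent.Q201.LV

open scoped ENNReal

variable {α : Type}

theorem lasVegas_pure (P : Prop) [Decidable P] : LasVegas (PMF.pure (some (decide P))) P := by
  unfold LasVegas
  constructor
  · intro h
    simp [h, PMF.pure_apply]
  · intro h
    simp [h, PMF.pure_apply]

theorem runFrom_append {Z : Type} (A : LVFA α Z) (p : PMF Z) (u v : List α) :
    A.runFrom p (u ++ v) = A.runFrom (A.runFrom p u) v := by
  simp [LVFA.runFrom, List.foldl_append]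

theorem run_append {Z : Type} (A : LVFA α Z) (u v : List α) :
    A.run (u ++ v) = A.runFrom (A.run u) v := by
  simp [LVFA.run, runFrom_append]

/-- A DFA is a Las Vegas automaton. -/
theorem exists_lvfa_of_dfa {σ : Type} {n : ℕ} (M : DFA α σ) (e : σ ≃ Fin n) :
    ∃ A : LVFA α (Fin n), A.Recognises M.accepts := by
  classical
  refine ⟨⟨fun z => some (decide (e.symm z ∈ M.accept)), e M.start,
    fun z a => PMF.pure (e (M.step (e.symm z) a))⟩, ?_⟩
  intro w
  have hrun : ∀ w : List α, (LVFA.run (⟨fun z => some (decide (e.symm z ∈ M.accept)), e M.start,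
    fun z a => PMF.pure (e (M.step (e.symm z) a))⟩ : LVFA α (Fin n)) w) =
      PMF.pure (e (M.eval w)) := by
    intro w
    induction w using List.reverseRecOn with
    | nil => simp [LVFA.run, LVFA.runFrom]
    | append_singleton w a ih =>
      rw [run_append, ih]
      simp [LVFA.runFrom, PMF.pure_bind]
  rw [hrun, PMF.pure_map]
  have : (decide (e.symm (e (M.eval w)) ∈ M.accept)) = decide (w ∈ M.accepts) := by
    simp [DFA.mem_accepts]
  simp only [this]
  exact lasVegas_pure _

theorem lvs_le_of_dfa {σ : Type} [Fintype σ] (M : DFA α σ) :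
    lvs M.accepts ≤ Fintype.card σ :=
  Nat.sInf_le (exists_lvfa_of_dfa M (Fintype.equivFin σ))

theorem lvs_le_ncard (L : Language α) (h : (Set.range L.leftQuotient).Finite) :
    lvs L ≤ (Set.range L.leftQuotient).ncard := by
  have := h.fintype
  have := lvs_le_of_dfa L.toDFA
  rw [Language.accepts_toDFA] at this
  rwa [Set.ncard_eq_toFinset_card', Set.toFinset_card]

/-- A Las Vegas automaton for a regular language exists. -/
theorem exists_lvfa_of_isRegular {L : Language α} (h : L.IsRegular) :
    {n : ℕ | ∃ A : LVFA α (Fin n), A.Recognises L}.Nonempty := by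
  obtain ⟨σ, _, M, hM⟩ := h
  refine ⟨Fintype.card σ, ?_⟩
  rw [← hM]
  exact exists_lvfa_of_dfa M (Fintype.equivFin σ)

/-- A protocol for a regular language exists. -/
theorem exists_protocol_of_isRegular {L : Language α} (h : L.IsRegular) :
    {n : ℕ | ∃ P : Protocol α, P.Computes L ∧ P.messages.encard = n}.Nonempty := by
  classical
  obtain ⟨σ, _, M, hM⟩ := h
  subst hM
  let e := Fintype.equivFin σ
  let c : σ → List Bool := fun s => List.replicate (e s : ℕ) true
  have hc : Function.Injective c := by
    intro s t hst
    have : (e s : ℕ) = e t := by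
      have := congrArg List.length hst
      simpa [c] using this
    exact e.injective (Fin.ext this)
  let d : List Bool → σ := fun m => if h : ∃ s, c s = m then h.choose else M.start
  have hd : ∀ s, d (c s) = s := by
    intro s
    have h : ∃ s', c s' = c s := ⟨s, rfl⟩
    simp only [d, h, dif_pos]
    exact hc h.choose_spec
  let P : Protocol α := ⟨fun x => PMF.pure (c (M.eval x)),
    fun y m => PMF.pure (some (decide (M.evalFrom (d m) y ∈ M.accept)))⟩
  have hP : P.Computes M.accepts := by
    intro x y
    have : (P.send x).bind (P.reply y) = PMF.pure (some (decide (x ++ y ∈ M.accepts))) := by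
      simp only [P, PMF.pure_bind, hd]
      congr 3
      simp [DFA.mem_accepts, DFA.eval, DFA.evalFrom_of_append]
    rw [this]
    exact lasVegas_pure _
  have hfin : P.messages.Finite := by
    apply (Set.finite_range c).subset
    rintro m ⟨x, hx⟩
    simp only [P, PMF.pure_apply] at hx
    by_contra hcon
    apply hx
    rw [if_neg]
    rintro rfl
    exact hcon ⟨_, rfl⟩
  refine ⟨P.messages.ncard, P, hP, ?_⟩
  exact (Set.Finite.cast_ncard_eq hfin).symm

theorem half_le_toReal {a : ℝ≥0∞} (h : 1 / 2 ≤ a) (ha : a ≠ ⊤) : (1 / 2 : ℝ) ≤ a.toReal := by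
  have := ENNReal.toReal_mono ha h
  simpa using this

/-- The messages of a protocol with finitely many messages separate few rows. -/
theorem card_le_of_protocol {L : Language α} (P : Protocol α) (hP : P.Computes L) (k : ℕ)
    (hk : P.messages.encard = k) (S : Finset (List α))
    (hS : ∀ x ∈ S, ∀ x' ∈ S, x ≠ x' → L.leftQuotient x ≠ L.leftQuotient x') :
    S.card ≤ k ^ 2 := by
  classical
  have hfin : P.messages.Finite := Set.finite_of_encard_eq_coe hk
  set M : Finset (List Bool) := hfin.toFinset with hM
  have hMk : M.card = k := by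
    have h1 := hfin.encard_eq_coe_toFinset_card
    rw [hk] at h1
    exact_mod_cast h1.symm
  have hout : ∀ x m, m ∉ M → P.send x m = 0 := by
    intro x m hm
    by_contra hcon
    apply hm
    rw [hM, Set.Finite.mem_toFinset]
    exact ⟨x, hcon⟩
  have hsumE : ∀ x, ∑ m ∈ M, P.send x m = 1 := by
    intro x
    rw [← PMF.tsum_coe (P.send x), tsum_eq_sum]
    intro m hm
    exact hout x m hm
  have hfinite : ∀ x m, P.send x m ≠ ⊤ := fun x m => PMF.apply_ne_top _ _
  rw [← hMk]
  have hout' : ∀ x y (b : Bool), ((P.send x).bind (P.reply y)) (some b) =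
      ∑ m ∈ M, P.send x m * P.reply y m (some b) := by
    intro x y b
    rw [PMF.bind_apply, tsum_eq_sum]
    intro m hm
    rw [hout x m hm, zero_mul]
  refine card_rows_le M (fun x m => (P.send x m).toReal) (fun x m => ENNReal.toReal_nonneg) ?_
    (fun x y => x ++ y ∈ L) (fun y m => P.reply y m (some true) = 0 ∧ P.reply y m (some false) = 0)
    ?_ ?_ S ?_
  · intro x
    rw [← ENNReal.toReal_sum (fun m _ => hfinite x m), hsumE]
    simp
  · intro x y
    -- decided messages have mass at least one half
    have key : (1 / 2 : ℝ≥0∞) ≤ ∑ m ∈ M.filter (fun m => ¬ (P.reply y m (some true) = 0 ∧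
        P.reply y m (some false) = 0)), P.send x m := by
      have hb : ∃ b : Bool, 1 / 2 ≤ ((P.send x).bind (P.reply y)) (some b) := by
        by_cases h : x ++ y ∈ L
        · exact ⟨true, ((hP x y).1 h).2⟩
        · exact ⟨false, ((hP x y).2 h).2⟩
      obtain ⟨b, hb⟩ := hb
      rw [hout'] at hb
      refine hb.trans ?_
      rw [← Finset.sum_filter_add_sum_filter_not M (fun m => P.reply y m (some true) = 0 ∧
        P.reply y m (some false) = 0)]
      have h0 : ∑ m ∈ M.filter (fun m => P.reply y m (some true) = 0 ∧
          P.reply y m (some false) = 0), P.send x m * P.reply y m (some b) = 0 := by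
        apply Finset.sum_eq_zero
        intro m hm
        have := (Finset.mem_filter.mp hm).2
        cases b
        · rw [this.2, mul_zero]
        · rw [this.1, mul_zero]
      rw [h0, zero_add]
      apply Finset.sum_le_sum
      intro m _
      calc P.send x m * P.reply y m (some b) ≤ P.send x m * 1 := by
            gcongr
            exact PMF.coe_le_one _ _
        _ = _ := mul_one _
    have htot := hsumE x
    rw [← Finset.sum_filter_add_sum_filter_not M (fun m => P.reply y m (some true) = 0 ∧
        P.reply y m (some false) = 0)] at htot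
    have hne1 : ∑ m ∈ M.filter (fun m => P.reply y m (some true) = 0 ∧
        P.reply y m (some false) = 0), P.send x m ≠ ⊤ := by
      exact (ENNReal.sum_lt_top.mpr fun m _ => (hfinite x m).lt_top).ne
    have hne2 : ∑ m ∈ M.filter (fun m => ¬ (P.reply y m (some true) = 0 ∧
        P.reply y m (some false) = 0)), P.send x m ≠ ⊤ := by
      exact (ENNReal.sum_lt_top.mpr fun m _ => (hfinite x m).lt_top).ne
    have h1 := half_le_toReal key hne2
    have h2 := congrArg ENNReal.toReal htot
    rw [ENNReal.toReal_add hne1 hne2, ENNReal.toReal_sum (fun m _ => hfinite x m),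
      ENNReal.toReal_one] at h2
    have e : ∑ m ∈ M.filter (fun m => P.reply y m (some true) = 0 ∧
        P.reply y m (some false) = 0), (P.send x m).toReal ≤ 1 / 2 := by linarith
    convert e using 2
    ext m
    simp only [Finset.mem_filter]
  · intro x x' y m hu hx hx'
    by_contra hcon
    push Not at hcon
    have hne : P.send x m ≠ 0 := fun h => hcon.1 (by simp [h])
    have hne' : P.send x' m ≠ 0 := fun h => hcon.2 (by simp [h])
    have hmM : m ∈ M := by
      by_contra h
      exact hne (hout x m h)
    have h1 : ((P.send x).bind (P.reply y)) (some false) = 0 := ((hP x y).1 hx).1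
    have h2 : ((P.send x').bind (P.reply y)) (some true) = 0 := ((hP x' y).2 hx').1
    rw [hout', Finset.sum_eq_zero_iff] at h1 h2
    have h1' := h1 m hmM
    have h2' := h2 m hmM
    rw [mul_eq_zero] at h1' h2'
    exact hu ⟨h2'.resolve_left hne', h1'.resolve_left hne⟩
  · intro x hx x' hx' hne
    by_contra hcon
    push Not at hcon
    apply hS x hx x' hx' hne
    ext y
    exact hcon y

/-- The known upper bound. -/
theorem lvs_le_sq (L : Language α) (h : L.IsRegular) : lvs L ≤ (lvmc L) ^ 2 := by
  classical
  have hmem := Nat.sInf_mem (exists_protocol_of_isRegular h)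
  obtain ⟨P, hP, hk⟩ := hmem
  have hfin := h.finite_range_leftQuotient
  refine (lvs_le_ncard L hfin).trans ?_
  -- choose representatives
  have := hfin.fintype
  have hex : ∀ s : Set.range L.leftQuotient, ∃ x, L.leftQuotient x = s := fun s => s.2
  choose r hr using hex
  have hinj : Function.Injective r := by
    intro s t hst
    apply Subtype.ext
    rw [← hr s, ← hr t, hst]
  have := card_le_of_protocol P hP _ hk (Finset.univ.image r) (by
    intro x hx x' hx' hne
    simp only [Finset.mem_image, Finset.mem_univ, true_and] at hx hx'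
    obtain ⟨s, rfl⟩ := hx
    obtain ⟨t, rfl⟩ := hx'
    rw [hr, hr]
    intro h
    exact hne (congrArg r (Subtype.ext h)))
  rw [Finset.card_image_of_injective _ hinj, Finset.card_univ] at this
  rw [Set.ncard_eq_toFinset_card', Set.toFinset_card]
  exact this

theorem G_bddAbove (α : Type) (m : ℕ) :
    BddAbove {n : ℕ | ∃ L : Language α, L.IsRegular ∧ lvmc L ≤ m ∧ lvs L = n} := by
  refine ⟨m ^ 2, ?_⟩
  rintro n ⟨L, hL, hm, rfl⟩
  exact (lvs_le_sq L hL).trans (Nat.pow_le_pow_left hm 2)

theorem G_le (α : Type) (m : ℕ) : G α m ≤ m ^ 2 := by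
  rcases Set.eq_empty_or_nonempty
    {n : ℕ | ∃ L : Language α, L.IsRegular ∧ lvmc L ≤ m ∧ lvs L = n} with h | h
  · unfold G
    rw [h]
    simp
  · apply csSup_le h
    rintro n ⟨L, hL, hm, rfl⟩
    exact (lvs_le_sq L hL).trans (Nat.pow_le_pow_left hm 2)

end Pool.Agent.Q201.LV
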